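import Pool.Agent.BSH.Stmts

set_option autoImplicit false

namespace Pool.Agent.BSH.H16

open MvPolynomial Pool.Agent.BSH

theorem sp_sub {E A : Type} [Field E] [CommRing A] [Algebra E A] (B : Set A) (S : Subalgebra E A)
    (hB : B ⊆ S) (l : List A) (hl : ∀ x ∈ l, x ∈ S) : sp E B l ≤ Subalgebra.toSubmodule S := by
  unfold sp
  rw [Submodule.span_le]
  rintro x ((hx | hx) | hx)
  · rw [Set.mem_singleton_iff] at hx
    rw [hx]
    exact S.one_mem
  · exact hB hx
  · exact hl x hx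

theorem ch_sub {E A : Type} [Field E] [CommRing A] [Algebra E A] (B : Set A) (S : Subalgebra E A)
    (hB : B ⊆ S) (l : List A) (h : Ch E B l) : ∀ x ∈ l, x ∈ S := by
  induction l with
  | nil =>
    intro x hx
    cases hx
  | cons g l ih =>
    obtain ⟨h1, a, ha, b, hb, hg⟩ := h
    have h2 := ih h1
    have h3 := sp_sub B S hB l h2
    intro x hx
    rcases List.mem_cons.mp hx with hx | hx
    · rw [hx, hg]
      exact S.mul_mem (h3 ha) (h3 hb)
    · exact h2 x hx

theorem minors (E : Type) [Field E] [CharZero E] (k r : ℕ) :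
    Minors k r (fun m j => ((m : E) + 1) ^ j) := by
  intro f hf _
  have h : (Matrix.of fun x y : Fin r => (fun (m j : ℕ) => ((m : E) + 1) ^ j) (f x) y)
      = Matrix.vandermonde (fun x => (f x : E) + 1) := by
    ext x y
    rfl
  rw [h, Matrix.det_vandermonde_ne_zero_iff]
  intro x y hxy
  apply hf
  have h2 : (f x : E) = (f y : E) := add_right_cancel hxy
  exact_mod_cast h2

theorem numer (r q s : ℕ) (hr : 1 ≤ r) (h : 3 * s + 7 * r ≤ q * r) :
    8 ^ s * (2 ^ q) ^ r * 3 ^ (3 * r + r) < (2 ^ q - 1) ^ (3 * r + 1 - r) := by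
  have hq : 7 ≤ q := by
    by_contra hc
    push Not at hc
    have : q * r ≤ 6 * r := Nat.mul_le_mul_right r (by omega)
    omega
  have hD : 128 ≤ 2 ^ q := by
    calc 128 = 2 ^ 7 := by norm_num
      _ ≤ 2 ^ q := Nat.pow_le_pow_right (by norm_num) hq
  obtain ⟨t, ht⟩ : ∃ t, 2 ^ q = t + 1 := ⟨2 ^ q - 1, by omega⟩
  have ht127 : 127 ≤ t := by omega
  have h1 : 81 * (t + 1) ^ 2 ≤ 128 * t ^ 2 := by nlinarith
  have h2 : 81 ^ r * (t + 1) ^ (2 * r) ≤ 128 ^ r * t ^ (2 * r) := by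
    have := Nat.pow_le_pow_left h1 r
    rw [mul_pow, mul_pow, ← pow_mul, ← pow_mul] at this
    exact this
  have h3 : 8 ^ s * 128 ^ r ≤ (t + 1) ^ r := by
    rw [← ht, ← pow_mul]
    calc 8 ^ s * 128 ^ r = 2 ^ (3 * s + 7 * r) := by
          rw [pow_add, pow_mul, pow_mul]
          norm_num
      _ ≤ 2 ^ (q * r) := Nat.pow_le_pow_right (by norm_num) h
  have e1 : 3 * r + 1 - r = 2 * r + 1 := by omega
  have e2 : (3 : ℕ) ^ (3 * r + r) = 81 ^ r := by
    have : 3 * r + r = 4 * r := by ring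
    rw [this, pow_mul]
    norm_num
  rw [e1, e2, ht, Nat.add_sub_cancel]
  have hpos : 0 < 128 ^ r := by positivity
  apply lt_of_mul_lt_mul_left _ (Nat.zero_le (128 ^ r))
  calc 128 ^ r * (8 ^ s * (t + 1) ^ r * 81 ^ r)
      = (8 ^ s * 128 ^ r) * ((t + 1) ^ r * 81 ^ r) := by ring
    _ ≤ (t + 1) ^ r * ((t + 1) ^ r * 81 ^ r) := Nat.mul_le_mul_right _ h3
    _ = 81 ^ r * (t + 1) ^ (2 * r) := by
        rw [two_mul, pow_add]
        ring
    _ ≤ 128 ^ r * t ^ (2 * r) := h2
    _ < 128 ^ r * t ^ (2 * r + 1) := by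
        apply Nat.mul_lt_mul_of_pos_left _ hpos
        exact Nat.pow_lt_pow_right (by omega) (by omega)

/-- **Row LVL**. -/
theorem lvl (hMAI : MaiStmt) : LvlStmt := by
  intro E _ _ r q s F hr hq hF hF0 hzero
  have hq7 : 7 ≤ q := by
    by_contra hc
    push Not at hc
    have : q * r ≤ 6 * r := Nat.mul_le_mul_right r (by omega)
    omega
  have hd : 2 ≤ 2 ^ q := by
    calc 2 = 2 ^ 1 := by norm_num
      _ ≤ 2 ^ q := Nat.pow_le_pow_right (by norm_num) (by omega)
  have e4 : 3 * r + r = 4 * r := by ring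
  have hsub : sub (3 * r) r (2 ^ q) (fun m j => ((m : E) + 1) ^ j) F = 0 := by
    rw [← hzero]
    obtain ⟨l, -, hch, hsp⟩ := hF
    have hB : vs E (4 * r) ⊆ (AlgHom.equalizer
        (sub (3 * r) r (2 ^ q) (fun m j => ((m : E) + 1) ^ j))
        (aeval (level r q X) : MvPolynomial ℕ E →ₐ[E] MvPolynomial ℕ E) :
          Subalgebra E (MvPolynomial ℕ E)) := by
      rintro x ⟨i, hi, rfl⟩
      show sub (3 * r) r (2 ^ q) (fun m j => ((m : E) + 1) ^ j) (X i)
        = (aeval (level r q X) : MvPolynomial ℕ E →ₐ[E] MvPolynomial ℕ E) (X i)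
      unfold sub
      rw [aeval_X, aeval_X]
      unfold level
      by_cases h1 : i < 3 * r
      · rw [if_neg (by omega), if_pos h1]
      · rw [if_pos ⟨by omega, by omega⟩, if_neg h1, if_pos hi]
        refine Finset.sum_congr rfl (fun m _ => ?_)
        simp
    have h5 := sp_sub (vs E (4 * r)) _ hB l (ch_sub (vs E (4 * r)) _ hB l hch)
    exact h5 hsp
  have h6 := hMAI E (3 * r) r (2 ^ q) s (fun m j => ((m : E) + 1) ^ j) F hd (minors E _ _)
    (by rw [e4]; exact hF) hF0 hsub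
  exact absurd h6 (not_le.mpr (numer r q s hr hq))

end Pool.Agent.BSH.H16
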